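import Pool.Agent.H315R3.LPMMain

/-!
# `MP_b5ca43_co`: lattice path matroids are characterised by a sentence of `MS₀`

The sentence says: for every component `K` of `M` (minimal nonempty set such that each circuit is
inside or disjoint from it) there are elements `a, z` of `K` such that, writing `F_C` for
`cl(C) ∩ K` where `C` is a circuit inside `K`,

* the sets `F_C` that contain `a` but not `z` together with the complements in `K` of the sets
  `F_C` that contain `z` but not `a` form a chain;
* `F_C` is `K` when it contains both of `a`, `z`;
* when `F_C` contains neither of `a`, `z`, it is the intersection of a set `F₁` of the first kind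
  and a set `F₂` of the second kind with `F₁ ∪ F₂ = K`, and `F₁`, `F₂` form a modular pair.
-/

namespace Pool.Agent.Results.MP_b5ca43_co.LatticePathMS0

open Pool.Agent.H315R3.LPM

universe u

/-- There is an `MS₀` sentence that holds in a finite matroid exactly when it is a lattice path
matroid. -/
theorem result : ∃ φ : Formula 0, ∀ (α : Type u) (M : Matroid α), M.Finite →
    (Models M φ ↔ IsLatticePathMatroid M) := by
  obtain ⟨φ, hφ⟩ := exists_formula_psi.{u}
  exact ⟨φ, fun α M _ => (hφ α M).trans psi_iff_lpm⟩

end Pool.Agent.Results.MP_b5ca43_co.LatticePathMS0
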